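import Pool.Agent.L7h49.PM.Def2
import Pool.Agent.L7h89.PM.Bus

/-!
# Part BUSQ of project PM (adapted from `Pool.Agent.L7h89.PM.Bus`)
-/

set_option autoImplicit false
set_option linter.all false

namespace Pool.Agent.L7h61.PM

open Pool.Agent.L7h49.PM Filter
open Pool.Agent.L7h89.PM (tau tau_lt tau_nonneg exists_int ev_ge)

theorem tau_le9 {s : ℝ} (h0 : 0 ≤ s) (h1 : s ≤ 1) : tau s ≤ 1 / 9 := by
  unfold tau
  have h8 : (9 : ℝ) ≤ √(100 - s ^ 2) := by
    apply Real.le_sqrt_of_sq_le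
    nlinarith
  rw [div_le_iff₀ (by linarith)]
  linarith

theorem tau_ge {s : ℝ} (h0 : 1 / 2 ≤ s) (h1 : s ≤ 1) : 1 / 20 ≤ tau s := by
  unfold tau
  have h8 : √(100 - s ^ 2) ≤ 10 := by
    rw [show (10 : ℝ) = √(10 ^ 2) by rw [Real.sqrt_sq (by norm_num)]]
    apply Real.sqrt_le_sqrt
    nlinarith
  have h9 : 0 < √(100 - s ^ 2) := Real.sqrt_pos.mpr (by nlinarith)
  rw [le_div_iff₀ h9]
  linarith

theorem s_BUSQ (h2 : S_LIM) (h3 : S_DISC) : S_BUSQ := by
  intro V G f C hR M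
  by_contra hcon
  have hmonge : ∀ (L y0 y1 t0 t1 : ℝ) (a b c d : V), M ≤ L → 0 ≤ y0 → y0 + 200 * C ≤ y1 →
      y1 ≤ L / 1000 → L / 20 ≤ t0 → t0 + 200 * C ≤ t1 → t1 ≤ L / 9 →
      ‖f a - pt 0 y0‖ ≤ C → ‖f b - pt 0 y1‖ ≤ C → ‖f c - pt L t1‖ ≤ C → ‖f d - pt L t0‖ ≤ C →
      G.dist a d + G.dist b c ≤ G.dist a c + G.dist b d := by
    intro L y0 y1 t0 t1 a b c d k1 k2 k3 k4 k5 k6 k7 k8 k9 k10 k11
    by_contra hlt
    exact hcon ⟨L, y0, y1, t0, t1, a, b, c, d, k1, k2, k3, k4, k5, k6, k7, k8, k9, k10, k11,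
      not_le.1 hlt⟩
  have hC := hR.one
  set H : ℝ := 200 * C with hH
  have hx : ∀ i : ℕ, ∃ x, ‖f x - pt 0 (i * H)‖ < C := fun i => hR.net _
  choose x hx using hx
  have hz : ∀ (L : ℕ) (s : ℝ), ∃ z, ‖f z - pt L (tau ((1 + s) / 2) * L)‖ < C := fun L s => hR.net _
  choose z hz using hz
  have tri : ∀ u v w, (G.dist u w : ℤ) ≤ G.dist u v + G.dist v w := by
    intro u v w
    have := hR.conn.dist_triangle (u := u) (v := v) (w := w)
    exact_mod_cast this
  have hg : ∀ (i : ℕ) (s : ℝ), ∃ m : ℤ, ∀ᶠ L in (hyperfilter ℕ : Filter ℕ),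
      (G.dist (x 0) (z L s) : ℤ) - G.dist (x i) (z L s) = m := by
    intro i s
    apply exists_int (b := G.dist (x 0) (x i))
    intro L
    have e1 := tri (x 0) (x i) (z L s)
    have e2 := tri (x i) (x 0) (z L s)
    have e3 : (G.dist (x i) (x 0) : ℤ) = G.dist (x 0) (x i) := by rw [G.dist_comm]
    rw [abs_le]
    constructor <;> linarith
  choose g hg using hg
  have hbd : ∀ (n : ℕ) (s : ℝ), 0 ≤ s → s ≤ 1 →
      |(g n s : ℝ) - n * H * ((1 + s) / 2) / 10| ≤ 6 * C + 1 := by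
    intro n s hs0 hs1
    obtain ⟨N, hN⟩ := exists_nat_ge (2 * (n * H) + (n * H) ^ 2 + 1)
    obtain ⟨L, hL1, hL2⟩ := ((hg n s).and (ev_ge N)).exists
    have hn0 : 0 ≤ (n : ℝ) * H := by positivity
    have hNL : (N : ℝ) ≤ L := by exact_mod_cast hL2
    have hLpos : (0 : ℝ) < L := by nlinarith [sq_nonneg ((n : ℝ) * H)]
    have hlim := h2 (n * H) ((1 + s) / 2) L hn0 (by linarith) (by linarith) hLpos
      (by nlinarith [sq_nonneg ((n : ℝ) * H)])
    have hle : (n * H) ^ 2 / (L : ℝ) ≤ 1 := by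
      rw [div_le_one hLpos]
      linarith
    have hn1 := hR.near (x 0) (z L s)
    have hn2 := hR.near (x n) (z L s)
    have hx0 := hx 0
    have hxn := hx n
    have hzz := hz L s
    have e0 : ((0 : ℕ) : ℝ) * H = 0 := by simp
    rw [e0] at hx0
    have ht : tau ((1 + s) / 2) * L = (1 + s) / 2 / √(100 - ((1 + s) / 2) ^ 2) * L := rfl
    rw [ht] at hzz
    set P0 := pt 0 0
    set Pn := pt 0 (n * H)
    set PL := pt L ((1 + s) / 2 / √(100 - ((1 + s) / 2) ^ 2) * L)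
    have d1 : |‖f (x 0) - f (z L s)‖ - ‖P0 - PL‖| ≤ ‖f (x 0) - P0‖ + ‖f (z L s) - PL‖ := by
      calc |‖f (x 0) - f (z L s)‖ - ‖P0 - PL‖| ≤ ‖(f (x 0) - f (z L s)) - (P0 - PL)‖ :=
            abs_norm_sub_norm_le _ _
        _ = ‖(f (x 0) - P0) - (f (z L s) - PL)‖ := by congr 1; abel
        _ ≤ _ := norm_sub_le _ _
    have d2 : |‖f (x n) - f (z L s)‖ - ‖Pn - PL‖| ≤ ‖f (x n) - Pn‖ + ‖f (z L s) - PL‖ := by
      calc |‖f (x n) - f (z L s)‖ - ‖Pn - PL‖| ≤ ‖(f (x n) - f (z L s)) - (Pn - PL)‖ :=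
            abs_norm_sub_norm_le _ _
        _ = ‖(f (x n) - Pn) - (f (z L s) - PL)‖ := by congr 1; abel
        _ ≤ _ := norm_sub_le _ _
    have hgr : (g n s : ℝ) = (G.dist (x 0) (z L s) : ℝ) - G.dist (x n) (z L s) := by
      rw [← hL1]; push_cast; ring
    rw [hgr]
    rw [abs_le] at *
    rw [abs_lt] at hn1 hn2
    constructor
    · linarith [hlim.1, hlim.2, hn1.1, hn1.2, hn2.1, hn2.2, d1.1, d1.2, d2.1, d2.2]
    · linarith [hlim.1, hlim.2, hn1.1, hn1.2, hn2.1, hn2.2, d1.1, d1.2, d2.1, d2.2]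
  have hmono : ∀ (m n : ℕ) (s t : ℝ), m ≤ n → 0 ≤ s → s ≤ t → t ≤ 1 →
      g n s - g m s ≤ g n t - g m t := by
    intro m n s t hmn hs0 hst ht1
    rcases hmn.eq_or_lt with rfl | hmn
    · simp
    rcases hst.eq_or_lt with rfl | hst
    · exact le_rfl
    have htau := tau_lt (s := (1 + s) / 2) (t := (1 + t) / 2) (by linarith) (by linarith)
      (by linarith)
    obtain ⟨N, hN⟩ := exists_nat_ge (|M| + 1000 * (n * H) +
      200 * C / (tau ((1 + t) / 2) - tau ((1 + s) / 2)))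
    obtain ⟨L, ⟨⟨⟨⟨hL1, hL2⟩, hL3⟩, hL4⟩, hL5⟩⟩ :=
      (((((hg n s).and (hg m s)).and (hg n t)).and (hg m t)).and (ev_ge N)).exists
    have hNL : (N : ℝ) ≤ L := by exact_mod_cast hL5
    have hmn' : (m : ℝ) + 1 ≤ n := by exact_mod_cast hmn
    have hn0 : 0 ≤ (n : ℝ) * H := by positivity
    have hm0 : 0 ≤ (m : ℝ) * H := by positivity
    have hd : 0 < tau ((1 + t) / 2) - tau ((1 + s) / 2) := by linarith
    have hq : 0 ≤ 200 * C / (tau ((1 + t) / 2) - tau ((1 + s) / 2)) := by positivity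
    have hL0 : (0 : ℝ) ≤ L := by positivity
    have hM0 := abs_nonneg M
    have hM1 := le_abs_self M
    have hmon := hmonge L (m * H) (n * H) (tau ((1 + s) / 2) * L) (tau ((1 + t) / 2) * L)
      (x m) (x n) (z L t) (z L s) (by linarith) hm0
      (by
        have : ((m : ℝ) + 1) * H ≤ n * H := mul_le_mul_of_nonneg_right hmn' (by positivity)
        rw [hH] at *
        linarith)
      (by linarith)
      (by
        have := mul_le_mul_of_nonneg_right (tau_ge (s := (1 + s) / 2) (by linarith) (by linarith)) hL0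
        linarith)
      (by
        have h5 : 200 * C / (tau ((1 + t) / 2) - tau ((1 + s) / 2)) ≤ L := by linarith
        rw [div_le_iff₀ hd] at h5
        nlinarith)
      (by
        have := mul_le_mul_of_nonneg_right (tau_le9 (s := (1 + t) / 2) (by linarith) (by linarith)) hL0
        linarith)
      (hx m).le (hx n).le (hz L t).le (hz L s).le
    have hmon' : (G.dist (x m) (z L s) : ℤ) + G.dist (x n) (z L t)
        ≤ G.dist (x m) (z L t) + G.dist (x n) (z L s) := by exact_mod_cast hmon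
    linarith
  refine h3 (fun n s => g n s - g n 0) (H / 20) (12 * C + 2) (by positivity) ?_ ?_
  · intro n s hs0 hs1
    have k1 := hbd n s hs0 hs1
    have k2 := hbd n 0 le_rfl zero_le_one
    rw [abs_le] at k1 k2 ⊢
    push_cast
    constructor
    · linarith [k1.1, k1.2, k2.1, k2.2]
    · linarith [k1.1, k1.2, k2.1, k2.2]
  · intro m n s t hmn hs0 hst ht1
    have k1 := hmono m n s t hmn hs0 hst ht1
    show (g n s - g n 0) - (g m s - g m 0) ≤ (g n t - g n 0) - (g m t - g m 0)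
    linarith

end Pool.Agent.L7h61.PM
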